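import Mathlib
import Pool.Agent.Q171.KK.Exist

/-!
# Coupling constants of Kadison-Kastler close II₁ factors

There is a universal `δ > 0` such that all II₁ factors `M`, `N` on any Hilbert space whose
Kadison-Kastler distance is less than `δ` have the same coupling constant.
-/

set_option autoImplicit false

open scoped InnerProductSpace ENNReal

noncomputable section

namespace Pool.Agent.Results.MP_41729c_an.UniformConstant

variable {H : Type} [NormedAddCommGroup H] [InnerProductSpace ℂ H] [CompleteSpace H]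

/-- The normal functional `x ↦ ∑ ⟨ζ n, x (ζ n)⟩` given by a sequence of vectors. -/
def vecSum (ζ : ℕ → H) (x : H →L[ℂ] H) : ℂ := ∑' n, ⟪ζ n, x (ζ n)⟫_ℂ

/-- `x ↦ ∑ ⟨ζ n, x (ζ n)⟩` is a faithful normal tracial state of `M`. -/
structure IsTrace (M : VonNeumannAlgebra H) (ζ : ℕ → H) : Prop where
  state : HasSum (fun n => ‖ζ n‖ ^ 2) 1
  tracial : ∀ a ∈ M, ∀ b ∈ M, vecSum ζ (a * b) = vecSum ζ (b * a)
  faithful : ∀ a ∈ M, vecSum ζ (star a * a) = 0 → a = 0

/-- II₁ factors: infinite dimensional factors with a faithful normal tracial state. -/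
def IsII1Factor (M : VonNeumannAlgebra H) : Prop :=
  (∀ z ∈ M, (∀ a ∈ M, z * a = a * z) → ∃ c : ℂ, z = c • 1) ∧
  ¬ FiniteDimensional ℂ M.toStarSubalgebra ∧ ∃ ζ : ℕ → H, IsTrace M ζ

/-- `H` is, as a left `M`-module, the Hilbert space direct sum of modules `L²(M, τ) p i` with
projections `p i ∈ M` and `∑ τ(p i) = d`. The `i`-th summand is the closure of `M ξ i`; the
condition `⟨ξ i, x (ξ i)⟩ = τ(x p i)` says that `x p i ↦ x (ξ i)` extends to a unitary module map
of `L²(M, τ) p i` onto it. -/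
def HasDimension (M : VonNeumannAlgebra H) (d : ℝ≥0∞) : Prop :=
  ∃ ζ : ℕ → H, IsTrace M ζ ∧ ∃ (I : Type) (p : I → (H →L[ℂ] H)) (ξ : I → H),
    (∀ i, p i ∈ M ∧ star (p i) = p i ∧ p i * p i = p i) ∧
    (∀ i, ∀ x ∈ M, ⟪ξ i, x (ξ i)⟫_ℂ = vecSum ζ (x * p i)) ∧
    (∀ i j, i ≠ j → ∀ x ∈ M, ∀ y ∈ M, ⟪x (ξ i), y (ξ j)⟫_ℂ = 0) ∧
    (∀ v : H, (∀ i, ∀ x ∈ M, ⟪x (ξ i), v⟫_ℂ = 0) → v = 0) ∧
    d = ∑' i, ENNReal.ofReal (vecSum ζ (p i)).re

/-- The coupling constant `dim_M(H)`; by the first part of the theorem below it is the unique `d`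
with `HasDimension M d`. -/
def couplingConstant (M : VonNeumannAlgebra H) : ℝ≥0∞ := sInf {d | HasDimension M d}

/-- The closed unit ball of `M`. -/
def unitBall (M : VonNeumannAlgebra H) : Set (H →L[ℂ] H) := {x | x ∈ M ∧ ‖x‖ ≤ 1}

/-- The Kadison-Kastler distance: the Hausdorff distance of the unit balls in operator norm. -/
def kkDist (M N : VonNeumannAlgebra H) : ℝ := Metric.hausdorffDist (unitBall M) (unitBall N)

open Pool.Agent.Q171.KK in
theorem toTr {M : VonNeumannAlgebra H} {ζ : ℕ → H} (h : IsTrace M ζ) : IsTr M ζ :=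
  ⟨h.state, h.tracial, h.faithful⟩

open Pool.Agent.Q171.KK in
theorem to21 {M : VonNeumannAlgebra H} (h : IsII1Factor M) {ζ : ℕ → H} (hζ : IsTrace M ζ) :
    Is21 M ζ := ⟨h.1, h.2.1, toTr hζ⟩

open Pool.Agent.Q171.KK in
/-- The definition in terms of decompositions, for a given trace. -/
theorem hasDimension_iff {M : VonNeumannAlgebra H} (h : IsII1Factor M) {ζ : ℕ → H}
    (hζ : IsTrace M ζ) (d : ℝ≥0∞) : HasDimension M d ↔
      ∃ (I : Type) (p : I → (H →L[ℂ] H)) (ξ : I → H), Dec M ζ I p ξ ∧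
        d = ∑' i, ENNReal.ofReal (nt ζ (p i)).re := by
  constructor
  · rintro ⟨ζ', hζ', I, p, ξ, h1, h2, h3, h4, rfl⟩
    have hu : ∀ x ∈ M, nt ζ x = nt ζ' x := fun x hx => tr_unique (to21 h hζ) (toTr hζ') x hx
    refine ⟨I, p, ξ, ⟨fun i => ⟨(h1 i).1, (h1 i).2, fun x hx => ?_⟩, h3, h4⟩, ?_⟩
    · rw [hu _ (mul_mem hx (h1 i).1)]
      exact h2 i x hx
    · refine tsum_congr fun i => ?_
      rw [hu _ (h1 i).1]
      rfl
  · rintro ⟨I, p, ξ, hd, rfl⟩
    exact ⟨ζ, hζ, I, p, ξ, fun i => ⟨(hd.vec i).1, (hd.vec i).2.1⟩, fun i => (hd.vec i).2.2,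
      hd.orth, hd.total, rfl⟩

open Pool.Agent.Q171.KK in
theorem existsUnique_dim {M : VonNeumannAlgebra H} (h : IsII1Factor M) :
    ∃! d : ℝ≥0∞, HasDimension M d := by
  obtain ⟨ζ, hζ⟩ := h.2.2
  obtain ⟨I, p, ξ, hd⟩ := exists_dec (to21 h hζ)
  refine ⟨_, (hasDimension_iff h hζ _).2 ⟨I, p, ξ, hd, rfl⟩, fun d' hd' => ?_⟩
  obtain ⟨J, q, η, he, rfl⟩ := (hasDimension_iff h hζ _).1 hd'
  exact dec_unique (toTr hζ) he hd

theorem couplingConstant_eq {M : VonNeumannAlgebra H} {d : ℝ≥0∞} (h : IsII1Factor M)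
    (hd : HasDimension M d) : couplingConstant M = d := by
  have h1 : {d | HasDimension M d} = {d} := by
    ext e
    rw [Set.mem_singleton_iff]
    show HasDimension M e ↔ e = d
    refine ⟨fun he => (existsUnique_dim h).unique he hd, ?_⟩
    rintro rfl
    exact hd
  rw [couplingConstant, h1, sInf_singleton]

open Pool.Agent.Q171.KK in
theorem ni_of_dist {M N : VonNeumannAlgebra H} {δ : ℝ} (h : kkDist M N < δ) :
    NI (M : Set (H →L[ℂ] H)) N δ ∧ NI (N : Set (H →L[ℂ] H)) M δ := by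
  have hne : ∀ M : VonNeumannAlgebra H, (unitBall M).Nonempty := fun M =>
    ⟨0, zero_mem M, by rw [norm_zero]; exact zero_le_one⟩
  have hbd : ∀ M : VonNeumannAlgebra H, Bornology.IsBounded (unitBall M) := fun M =>
    (Metric.isBounded_closedBall (x := (0 : H →L[ℂ] H)) (r := 1)).subset fun x hx => by
      rw [Metric.mem_closedBall, dist_zero_right]
      exact hx.2
  have hfin := Metric.hausdorffEDist_ne_top_of_nonempty_of_bounded (hne M) (hne N) (hbd M) (hbd N)
  constructor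
  · intro x hx hx1
    obtain ⟨y, hy, hxy⟩ := Metric.exists_dist_lt_of_hausdorffDist_lt
      (show x ∈ unitBall M from ⟨hx, hx1⟩) h hfin
    exact ⟨y, hy.1, by rw [← dist_eq_norm]; exact hxy.le⟩
  · intro x hx hx1
    obtain ⟨y, hy, hxy⟩ := Metric.exists_dist_lt_of_hausdorffDist_lt'
      (show x ∈ unitBall N from ⟨hx, hx1⟩) h hfin
    exact ⟨y, hy.1, by rw [← dist_eq_norm, dist_comm]; exact hxy.le⟩

/-- **Answer to the question.** The coupling constant of a II₁ factor is well defined, and there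
is `δ > 0` such that on every Hilbert space all II₁ factors at Kadison-Kastler distance less than
`δ` have equal coupling constants. -/
theorem result :
    (∀ (H : Type) [NormedAddCommGroup H] [InnerProductSpace ℂ H] [CompleteSpace H]
      (M : VonNeumannAlgebra H), IsII1Factor M →
      HasDimension M (couplingConstant M) ∧
        ∀ d : ℝ≥0∞, HasDimension M d → d = couplingConstant M) ∧
    ∃ δ : ℝ, 0 < δ ∧
      ∀ (H : Type) [NormedAddCommGroup H] [InnerProductSpace ℂ H] [CompleteSpace H]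
        (M N : VonNeumannAlgebra H), IsII1Factor M → IsII1Factor N → kkDist M N < δ →
        couplingConstant M = couplingConstant N := by
  constructor
  · intro H _ _ _ M hM
    obtain ⟨d, hd, -⟩ := existsUnique_dim hM
    rw [couplingConstant_eq hM hd]
    exact ⟨hd, fun e he => (existsUnique_dim hM).unique he hd⟩
  · obtain ⟨δ, hδ, hmain⟩ := Pool.Agent.Q171.KK.main_transfer
    refine ⟨δ, hδ, ?_⟩
    intro H _ _ _ M N hM hN hMN
    obtain ⟨ζ, hζ⟩ := hM.2.2
    obtain ⟨ζ', hζ'⟩ := hN.2.2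
    obtain ⟨h1, h2⟩ := ni_of_dist hMN
    obtain ⟨I, p, ξ, hd⟩ := Pool.Agent.Q171.KK.exists_dec (to21 hM hζ)
    obtain ⟨q, η, he, hpq⟩ := hmain H M N ζ ζ' (to21 hM hζ) (toTr hζ') h1 h2 I p ξ hd
    have e1 := couplingConstant_eq hM ((hasDimension_iff hM hζ _).2 ⟨I, p, ξ, hd, rfl⟩)
    have e2 := couplingConstant_eq hN ((hasDimension_iff hN hζ' _).2 ⟨I, q, η, he, rfl⟩)
    rw [e1, e2]
    exact tsum_congr fun i => by rw [hpq]

end Pool.Agent.Results.MP_41729c_an.UniformConstant
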